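import Pool.Agent.R128.Retractions

/-!
# The retractions of a complete lattice form a complete lattice

`Retr L` is the poset of the order-preserving idempotent maps of the lattice `L`, ordered pointwise
(`Pool/Agent/R128/Retractions.lean`).

For a set `R` of retractions of a complete lattice let `h x` be the meet of all `y` with
`r x ≤ y` and `r y ≤ y` for all `r ∈ R`. Then `h` is a retraction and the least upper bound of `R`.
Conversely the least upper bound of a family of constant maps is a constant map.
-/

set_option autoImplicit false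

namespace Run7.h773.Old.CompleteIff

open Pool.Agent.R128.Retractions

/-- In a lattice all of whose subsets have greatest lower bounds every set of retractions has a
least upper bound. -/
theorem exists_lub {L : Type*} [Lattice L] (hL : ∀ A : Set L, ∃ a, IsGLB A a) (R : Set (Retr L)) :
    ∃ t, IsLUB R t := by
  choose m hm using hL
  let S : L → Set L := fun x => {y | (∀ r ∈ R, r.1 x ≤ y) ∧ ∀ r ∈ R, r.1 y ≤ y}
  let h : L → L := fun x => m (S x)
  have hmem : ∀ x, h x ∈ S x := fun x => by
    refine ⟨fun r hr => (hm (S x)).2 fun y hy => hy.1 r hr, fun r hr => (hm (S x)).2 fun y hy => ?_⟩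
    exact (r.2.1 ((hm (S x)).1 hy)).trans (hy.2 r hr)
  have hle : ∀ x y, y ∈ S x → h x ≤ y := fun x y hy => (hm (S x)).1 hy
  have hmono : Monotone h := fun x x' hx =>
    hle x _ ⟨fun r hr => (r.2.1 hx).trans ((hmem x').1 r hr), (hmem x').2⟩
  have hidem : ∀ x, h (h x) = h x := fun x => by
    apply le_antisymm
    · exact hle _ _ ⟨(hmem x).2, (hmem x).2⟩
    · refine hle _ _ ⟨fun r hr => ?_, (hmem (h x)).2⟩
      calc r.1 x = r.1 (r.1 x) := (r.2.2 x).symm
        _ ≤ r.1 (h x) := r.2.1 ((hmem x).1 r hr)
        _ ≤ h (h x) := (hmem (h x)).1 r hr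
  refine ⟨⟨h, hmono, hidem⟩, fun r hr x => (hmem x).1 r hr, fun s hs x => ?_⟩
  refine hle _ _ ⟨fun r hr => hs hr x, fun r hr => ?_⟩
  calc r.1 (s.1 x) ≤ s.1 (s.1 x) := hs hr _
    _ = s.1 x := s.2.2 x

/-- The constant retraction. -/
def const {L : Type*} [Lattice L] (a : L) : Retr L := ⟨fun _ => a, fun _ _ _ => le_rfl, fun _ => rfl⟩

/-- **Retractions of complete lattices.** Let `L` be a nonempty lattice. Every set of retractions
of `L` has a least upper bound and a greatest lower bound among the retractions of `L` if and only if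
every subset of `L` has a least upper bound and a greatest lower bound in `L`. That is, the poset
`Retr L` is a complete lattice if and only if `L` is a complete lattice. -/
theorem completeIff (L : Type*) [Lattice L] [Nonempty L] :
    (∀ R : Set (Retr L), (∃ t, IsLUB R t) ∧ ∃ t, IsGLB R t) ↔
      ∀ A : Set L, (∃ a, IsLUB A a) ∧ ∃ a, IsGLB A a := by
  constructor
  · intro h
    have key : ∀ A : Set L, ∃ a, IsLUB A a := by
      intro A
      obtain ⟨t, ht⟩ := (h (const '' A)).1
      obtain ⟨x⟩ := ‹Nonempty L›
      refine ⟨t.1 x, fun a ha => ht.1 (Set.mem_image_of_mem _ ha) x, fun b hb => ?_⟩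
      have : t ≤ const b := ht.2 (by
        rintro _ ⟨a, ha, rfl⟩ y
        exact hb ha)
      exact this x
    intro A
    refine ⟨key A, ?_⟩
    obtain ⟨a, ha⟩ := key (lowerBounds A)
    exact ⟨a, isLUB_lowerBounds.1 ha⟩
  · intro h R
    have key := exists_lub fun A : Set L => (h A).2
    refine ⟨key R, ?_⟩
    obtain ⟨t, ht⟩ := key (lowerBounds R)
    exact ⟨t, isLUB_lowerBounds.1 ht⟩

end Run7.h773.Old.CompleteIff
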