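import Pool.Agent.Run7.h773.KE.Main

set_option autoImplicit false

/-!
# Kempe equivalence of the colourings of `3K₁`-free graphs (MP_de689f_co, Q2)

The answer to Q2 is positive, with `c = 1`, and `c = 0` is not sufficient.

Proof. Let `G` be `3K₁`-free, so that colour classes have at most two vertices, and let `g` be a
`q`-colouring with the least number of used colours, which is less than `q`. Let `c` be another
`q`-colouring which is not constant on a class `{u, v}` of `g`. If `v` (or `u`) is alone in its class
of `c`, then `u` is recoloured with the colour of `v`; this adds `{u, v}` to the common classes of `c`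
and `g` and destroys none. If a colour is not used by `c`, then `u` gets this colour first. If all
colours are used and both ends of all such pairs are in classes of `c` with two vertices, then all
vertices in classes of `g` with two vertices are in such classes of `c`, so `c` does not use more
colours than `g`, a contradiction. So all classes of `g` with two vertices become classes of `c`; as
`g` has the least number of colours, `c` and `g` then differ by a permutation of the colours.

`KempeStep c c'` (`Pool.Agent.H411R2.WSK.Defs`, starting library): the colouring `c'` arises from `c`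
by a single Kempe change.
-/

namespace Run7.h773.Old.IndependenceTwo

open Pool.Agent.H411R2.WSK

/-- The triangular prism, the complement of a hexagon. -/
def prism : SimpleGraph (Fin 6) where
  Adj u v := u ≠ v ∧ v ≠ u + 1 ∧ u ≠ v + 1
  symm := ⟨fun _ _ h => ⟨h.1.symm, h.2.2, h.2.1⟩⟩
  loopless := ⟨fun _ h => h.1 rfl⟩

instance : DecidableRel prism.Adj := fun u v => by unfold prism; infer_instance

/-- the colouring with the classes `{0, 1}`, `{2, 3}`, `{4, 5}` -/
def alpha : prism.Coloring (Fin 3) :=
  SimpleGraph.Coloring.mk ![0, 0, 1, 1, 2, 2] (by decide)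

/-- the colouring with the classes `{1, 2}`, `{3, 4}`, `{5, 0}` -/
def beta : prism.Coloring (Fin 3) :=
  SimpleGraph.Coloring.mk ![2, 0, 0, 1, 1, 2] (by decide)

/-- the colouring with the classes `{0, 1}`, `{2, 3}`, `{4, 5}` and the colours `p`, `q`, `r` -/
def col (p q r : Fin 3) : Fin 6 → Fin 3 := ![p, p, q, q, r, r]

/-- `U` is a union of Kempe chains for the colours `a` and `b`. -/
def Cl (x : Fin 6 → Fin 3) (a b : Fin 3) (U : Fin 6 → Bool) : Prop :=
  (∀ v, U v = true → x v = a ∨ x v = b) ∧
    ∀ v w, (U v = true ∧ prism.Adj v w ∧ (x w = a ∨ x w = b)) → U w = true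

instance (x : Fin 6 → Fin 3) (a b : Fin 3) (U : Fin 6 → Bool) : Decidable (Cl x a b U) := by
  unfold Cl; infer_instance

theorem closed_check : ∀ p q r a b : Fin 3, p ≠ q ∧ p ≠ r ∧ q ≠ r ∧ a ≠ b → ∀ U : Fin 6 → Bool,
    Cl (col p q r) a b U → U 0 = U 1 ∧ U 2 = U 3 ∧ U 4 = U 5 := by
  decide +kernel

theorem invariant {c c' : prism.Coloring (Fin 3)} (h : KempeStep c c')
    (hc : c 0 = c 1 ∧ c 2 = c 3 ∧ c 4 = c 5) : c' 0 = c' 1 ∧ c' 2 = c' 3 ∧ c' 4 = c' 5 := by
  classical
  obtain ⟨a, b, hab, U, hU, hs⟩ := h.closed
  have hx : ∀ v, c v = col (c 0) (c 2) (c 4) v := by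
    intro v
    fin_cases v
    · rfl
    · exact hc.1.symm
    · rfl
    · exact hc.2.1.symm
    · rfl
    · exact hc.2.2.symm
  have h1 := closed_check (c 0) (c 2) (c 4) a b ⟨c.valid (by decide), c.valid (by decide),
    c.valid (by decide), hab⟩ (fun v => decide (v ∈ U))
    ⟨fun v hv => by
      rw [← hx]
      exact hU.1 v (of_decide_eq_true hv),
    fun v w hvw => by
      obtain ⟨hv, hvw, hw⟩ := hvw
      rw [← hx] at hw
      exact decide_eq_true (hU.2 v (of_decide_eq_true hv) w hvw hw)⟩
  have key : ∀ u v, c u = c v → decide (u ∈ U) = decide (v ∈ U) → c' u = c' v := by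
    intro u v huv hd
    have hd' : u ∈ U ↔ v ∈ U := decide_eq_decide.1 hd
    by_cases hu : u ∈ U
    · rw [hs.1 u hu, hs.1 v (hd'.1 hu), huv]
    · rw [hs.2 u hu, hs.2 v (fun hv => hu (hd'.2 hv)), huv]
  exact ⟨key _ _ hc.1 h1.1, key _ _ hc.2.1 h1.2.1, key _ _ hc.2.2 h1.2.2⟩

theorem not_equivalent : ¬ Relation.ReflTransGen KempeStep alpha beta := by
  intro h
  have key : ∀ c : prism.Coloring (Fin 3), Relation.ReflTransGen KempeStep alpha c →
      c 0 = c 1 ∧ c 2 = c 3 ∧ c 4 = c 5 := by
    intro c hc
    induction hc with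
    | refl => exact ⟨rfl, rfl, rfl⟩
    | tail _ hstep ih => exact invariant hstep ih
  have h1 : beta 0 = beta 1 := (key beta h).1
  exact absurd h1 (by decide)

theorem prism_triple : ∀ u v w : Fin 6, u ≠ v → u ≠ w → v ≠ w →
    prism.Adj u v ∨ prism.Adj u w ∨ prism.Adj v w := by
  decide +kernel

/-- **Kempe equivalence in graphs without three pairwise nonadjacent vertices.** (1) If `G` is a
`k`-colourable graph that does not contain the edgeless graph on three vertices as an induced
subgraph, and `c ≥ 1`, then any two `(k + c)`-colourings of `G` are Kempe equivalent. (2) For `c = 0`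
this is false, for `k = 3`. -/
theorem independenceTwo :
    (∀ (V : Type) [Finite V] (G : SimpleGraph V) (k c : ℕ), 1 ≤ c →
      IsEmpty ((⊥ : SimpleGraph (Fin 3)) ↪g G) → G.Colorable k →
      ∀ α β : G.Coloring (Fin (k + c)), Relation.ReflTransGen KempeStep α β) ∧
    ∃ (V : Type) (_ : Finite V) (G : SimpleGraph V),
      IsEmpty ((⊥ : SimpleGraph (Fin 3)) ↪g G) ∧ G.Colorable 3 ∧
      ∃ α β : G.Coloring (Fin (3 + 0)), ¬ Relation.ReflTransGen KempeStep α β := by
  constructor
  · intro V _ G k c hc hG hk α β
    refine Run7.h773.KE.kempe ?_ hk (by omega) α β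
    intro u v w huv huw hvw h1 h2 h3
    refine hG.false ⟨⟨![u, v, w], ?_⟩, ?_⟩
    · intro i j hij
      fin_cases i <;> fin_cases j <;> simp_all
    · intro i j
      fin_cases i <;> fin_cases j <;> simp [h1, h2, h3, G.adj_comm v u, G.adj_comm w u, G.adj_comm w v]
  · refine ⟨Fin 6, inferInstance, prism, ⟨fun f => ?_⟩, ⟨alpha⟩, alpha, beta, not_equivalent⟩
    have hne : ∀ i j : Fin 3, i ≠ j → f i ≠ f j := fun i j hij h => hij (f.injective h)
    have hadj : ∀ i j : Fin 3, ¬ prism.Adj (f i) (f j) := fun i j h => by
      have := f.map_adj_iff.1 h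
      exact this
    rcases prism_triple (f 0) (f 1) (f 2) (hne _ _ (by decide)) (hne _ _ (by decide))
      (hne _ _ (by decide)) with h | h | h
    · exact hadj _ _ h
    · exact hadj _ _ h
    · exact hadj _ _ h

end Run7.h773.Old.IndependenceTwo
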