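import Pool.Agent.R29.Tutte
import Pool.Agent.Run7.h773.OT.Layout
import Pool.Agent.Run7.h773.OT.NonOuter

set_option autoImplicit false

/-!
# Outerplanarity is not determined by the Tutte polynomial (MP_f03b0a_co, Q1)

Two connected multigraphs with six vertices and ten edges (two pairs of parallel edges each) which
have the same Tutte polynomial; one is outerplanar, the other one is not.

* `G` is the cycle `0 1 2 3 4 5` with the chords `02`, `02`, `04` and a second edge `23`.
* `H` has the edges `03`, `03`, `34`, `42`, `05`, `05`, `52`, `02`, `21`, `01`; the vertices `0` and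
  `2` are joined by the three paths `0 3 4 2`, `0 5 2`, `0 1 2`, so that it contains a subdivision
  of `K_{2,3}`.

Outerplanarity is defined by planar embeddings with arbitrary curves (`Run7.h773.OT.Defs`); that `H`
has no embedding in which all vertices are on the boundary of the outer face follows from the van
Kampen obstruction for `K₃,₃` (starting library).
-/

namespace Run7.h773.Old.OuterplanarityFails

open Finset Run7.h773.OT
open Pool.Agent.R29 (under tutte)

/-- the outerplanar graph -/
def G : Fin 10 → Fin 6 × Fin 6 :=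
  ![(0,1),(1,2),(0,2),(0,2),(2,3),(2,3),(3,4),(0,4),(4,5),(0,5)]

/-- the graph which is not outerplanar -/
def H : Fin 10 → Fin 6 × Fin 6 :=
  ![(0,3),(0,3),(3,4),(4,2),(0,5),(0,5),(5,2),(0,2),(2,1),(0,1)]

theorem tutte_G_H : tutte G = tutte H := by
  apply Pool.Agent.R29.tutte_eq_of_poly (by norm_num) (by norm_num)
  decide +kernel

theorem outerplanar_G : IsOuterplanar G := by
  refine isOuterplanar_of_layout G (fun v => (v : ℕ)) ![1, 1, 1, 2, 1, 2, 1, 2, 1, 2] ?_ ?_ ?_ ?_
  · intro u v h
    exact Fin.ext (by simpa using h)
  · decide +kernel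
  · decide +kernel
  · decide +kernel

/-- the three paths -/
def L : Fin 2 → Fin 3 → Finset (Fin 10) := ![![{0}, {4}, {9}], ![{2, 3}, {6}, {8}]]

theorem not_outerplanar_H : ¬ IsOuterplanar H := by
  refine not_isOuterplanar ![0, 2] ![3, 5, 1] (fun a b => (L a b : Set (Fin 10))) ?_ ?_ ?_
  · intro D a b
    have key : ∀ e ∈ L a b, D.arc e ⊆ ⋃ e ∈ (L a b : Set (Fin 10)), D.arc e := fun e he =>
      Set.subset_biUnion_of_mem (u := fun e => D.arc e) (Finset.mem_coe.2 he)
    fin_cases a <;> fin_cases b
    · exact (D.joined 0).mono (key 0 (by decide))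
    · exact (D.joined 4).mono (key 4 (by decide))
    · exact (D.joined 9).mono (key 9 (by decide))
    · exact ((D.joined 3).symm.mono (key 3 (by decide))).trans
        ((D.joined 2).symm.mono (key 2 (by decide)))
    · exact (D.joined 6).symm.mono (key 6 (by decide))
    · exact (D.joined 8).mono (key 8 (by decide))
  · have h : ∀ a b a' b', a ≠ a' → b ≠ b' → ∀ e ∈ L a b, ∀ f ∈ L a' b', e ≠ f ∧
      ∀ v, (v = (H e).1 ∨ v = (H e).2) → (v = (H f).1 ∨ v = (H f).2) → False := by
      decide +kernel
    exact fun a b a' b' h1 h2 e he f hf =>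
      h a b a' b' h1 h2 e (Finset.mem_coe.1 he) f (Finset.mem_coe.1 hf)
  · have h : ∀ a b b', b ≠ b' → ∀ e ∈ L a b, (![3, 5, 1] : Fin 3 → Fin 6) b' ≠ (H e).1 ∧
      (![3, 5, 1] : Fin 3 → Fin 6) b' ≠ (H e).2 := by
      decide +kernel
    exact fun a b b' h1 e he => h a b b' h1 e (Finset.mem_coe.1 he)

theorem adj (K : Fin 10 → Fin 6 × Fin 6) (e : Fin 10) (h : (K e).1 ≠ (K e).2) :
    (under K univ).Reachable (K e).1 (K e).2 :=
  SimpleGraph.Adj.reachable ((Pool.Agent.R29.under_adj K univ _ _).2
    ⟨h, e, mem_univ _, Or.inl rfl⟩)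

theorem connected_G : (under G univ).Connected := by
  rw [SimpleGraph.connected_iff_exists_forall_reachable]
  refine ⟨0, fun v => ?_⟩
  have h01 : (under G univ).Reachable 0 1 := adj G 0 (by decide)
  have h02 : (under G univ).Reachable 0 2 := adj G 2 (by decide)
  have h23 : (under G univ).Reachable 2 3 := adj G 4 (by decide)
  have h04 : (under G univ).Reachable 0 4 := adj G 7 (by decide)
  have h05 : (under G univ).Reachable 0 5 := adj G 9 (by decide)
  fin_cases v
  · exact SimpleGraph.Reachable.refl _
  · exact h01
  · exact h02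
  · exact h02.trans h23
  · exact h04
  · exact h05

theorem connected_H : (under H univ).Connected := by
  rw [SimpleGraph.connected_iff_exists_forall_reachable]
  refine ⟨0, fun v => ?_⟩
  have h03 : (under H univ).Reachable 0 3 := adj H 0 (by decide)
  have h34 : (under H univ).Reachable 3 4 := adj H 2 (by decide)
  have h02 : (under H univ).Reachable 0 2 := adj H 7 (by decide)
  have h01 : (under H univ).Reachable 0 1 := adj H 9 (by decide)
  have h05 : (under H univ).Reachable 0 5 := adj H 4 (by decide)
  fin_cases v
  · exact SimpleGraph.Reachable.refl _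
  · exact h01
  · exact h02
  · exact h03
  · exact h03.trans h34
  · exact h05

/-- **Outerplanarity is not determined by the Tutte polynomial.** There are two connected
multigraphs `G` and `H` with the same Tutte polynomial such that `G` is outerplanar and `H` is
not. -/
theorem outerplanarityFails : ∃ (n m : ℕ) (G H : Fin m → Fin n × Fin n),
    (under G univ).Connected ∧ (under H univ).Connected ∧ tutte G = tutte H ∧
      IsOuterplanar G ∧ ¬ IsOuterplanar H :=
  ⟨6, 10, G, H, connected_G, connected_H, tutte_G_H, outerplanar_G, not_outerplanar_H⟩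

end Run7.h773.Old.OuterplanarityFails
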