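import Pool.Agent.Run7.h773.ChainData

set_option autoImplicit false

namespace Run7.h773.Old.StrictChain

open Run7.h773.Chain

/-- There is a cubic graph `G` (on 28 vertices) with `ir < γ < i < β₀ < Γ < IR`. -/
theorem strictChain : ∃ (n : ℕ) (G : SimpleGraph (Fin n)),
    (∀ v, {w | G.Adj v w}.ncard = 3) ∧
    ir G < dom G ∧ dom G < idom G ∧ idom G < indep G ∧ indep G < udom G ∧ udom G < uir G := by
  refine ⟨28, G, fun v => ?_, chain⟩
  have h := cubic v
  rw [← SimpleGraph.card_neighborFinset_eq_degree] at h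
  rw [← h, ← Set.ncard_coe_finset]
  congr 1
  ext w
  simp

end Run7.h773.Old.StrictChain
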